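import Pool.Agent.H317.GR.StmA
import Pool.Graph.R_pool_sql_team_seeded_ab47071d.Results.MP_a2a22c_al.CharacterCount
import Pool.Graph.R_pool_sql_team_seeded_ab47071d.Results.MP_a2a22c_al.FiniteCharacters

/-!
# Project GR: S_CNT, two characters which do not come from finite images
-/

set_option autoImplicit false

namespace Pool.Agent.H955.GR

open Matrix Module Pool.Agent.H317.GR

lemma fin_sub (G : Type) [Group G] (n : ℕ) (K : Type) [Field K] :
    finChars G n K ⊆ chars G n K := by
  rintro χ ⟨ρ, -, h⟩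
  exact ⟨ρ, h⟩

theorem cnt : S_FIN → S_SCH → S_CNT := by
  intro hFIN hSCH n hn Λ _ _ h1 h2 K _ _ _
  have hfgS : Group.FG (SZ n) :=
    Pool.Agent.TH567.PR.fg_SL (by rw [Fintype.card_fin]; omega)
  have e1 : (chars Λ n K).encard = (chars (SZ n) n K).encard :=
    (Pool.Agent.Results.MP_a2a22c_al.CharacterCount.result n hn Λ h1 n K
      (Or.inl inferInstance)).2 h2
  have f1 : (chars Λ n K).Finite :=
    Pool.Agent.Results.MP_a2a22c_al.FiniteCharacters.result n hn Λ inferInstance h1 K n
  have f2 : (chars (SZ n) n K).Finite :=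
    Pool.Agent.Results.MP_a2a22c_al.FiniteCharacters.result n hn (SZ n) hfgS
      (fun Q _ _ h => h) K n
  have s1 := fin_sub Λ n K
  have s2 := fin_sub (SZ n) n K
  have g : (finChars Λ n K).encard = (finChars (SZ n) n K).encard :=
    le_antisymm (hFIN _ _ h1 n K (f1.subset s1)) (hFIN _ _ h2 n K (f2.subset s2))
  have a1 := Set.encard_sdiff_add_encard_of_subset s1
  have a2 := Set.encard_sdiff_add_encard_of_subset s2
  rw [e1, ← a2, g] at a1
  have hF : (finChars (SZ n) n K).encard ≠ ⊤ := (f2.subset s2).encard_lt_top.ne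
  rw [← hSCH n hn K]
  exact WithTop.add_right_cancel hF a1

end Pool.Agent.H955.GR
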