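import Pool.Agent.H317.GR.StmD

/-!
# Project GR: S_STR, Steinberg systems in small dimension are trivial
-/

set_option autoImplicit false

namespace Pool.Agent.H955.GR

open Matrix Module Pool.Agent.H317.GR

/-- a nilpotent operator on a space of dimension at most one is zero -/
lemma nil_zero {K V : Type} [Field K] [AddCommGroup V] [Module K V] [FiniteDimensional K V]
    {N : Module.End K V} (hN : IsNilpotent N) (h : finrank K V ≤ 1) : N = 0 := by
  have h1 := (LinearMap.isNilpotent_iff_charpoly N).1 hN
  have h2 := LinearMap.aeval_self_charpoly N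
  rw [h1, map_pow, Polynomial.aeval_X] at h2
  have h3 := pow_eq_zero_of_le h h2
  rwa [pow_one] at h3

theorem str_aux (hSTP : S_STP) (K ι : Type) [Field K] [CharZero K] [DecidableEq ι] (k : ℕ)
    (hk : 1 ≤ k) (m : ℕ) : ∀ (J : Finset ι), J.card = m + 2 → ∀ (V : Type) [AddCommGroup V]
    [Module K V] [FiniteDimensional K V] (T : ι → ι → Module.End K V), StSys J k T →
    finrank K V < J.card → ∀ a ∈ J, ∀ b ∈ J, a ≠ b → T a b = 1 := by
  induction m with
  | zero =>
    intro J hJ V _ _ _ T hT hfr a ha b hb hab
    have h1 := nil_zero (hT.1 a ha b hb hab) (by omega)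
    exact sub_eq_zero.1 h1
  | succ m ih =>
    intro J hJ V _ _ _ T hT hfr a ha b hb hab
    by_contra hcon
    have hc : (J.erase a).card = m + 2 := by
      rw [Finset.card_erase_of_mem ha]
      omega
    obtain ⟨h1, h2, h3, h4⟩ := hSTP K V ι J k T hk (by omega) hT a ha ⟨b, hb, hab.symm, hcon⟩
      (fun U _ _ _ S hS hU => ih (J.erase a) hc U S hS hU)
    have h5 : finrank K (FixW2 J a T) ≤ finrank K V := Submodule.finrank_le _
    rcases h4 with h4 | h4
    · omega
    · omega

theorem str (hSTP : S_STP) : S_STR := by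
  intro K V ι _ _ _ _ _ _ J k T hk hJ hT hfr
  exact str_aux hSTP K ι k hk (J.card - 2) J (by omega) V T hT hfr

end Pool.Agent.H955.GR
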